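import Mathlib

set_option autoImplicit false

namespace Pool.Agent.Results.MP_332034_al.RestrictionOfScalars

universe u v w

/-- A lattice which embeds into the lattice of subspaces of a vector space `V` over a division
ring `D` also embeds into the lattice of subspaces of the same additive group `V`, seen as a
vector space over a field (the centre of `D`). -/
theorem result (L : Type u) [Lattice L] (D : Type v) [DivisionRing D] (V : Type w)
    [AddCommGroup V] [Module D V] (f : L → Submodule D V) (hf : Function.Injective f)
    (hinf : ∀ x y, f (x ⊓ y) = f x ⊓ f y) (hsup : ∀ x y, f (x ⊔ y) = f x ⊔ f y) :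
    ∃ (F : Type v) (_ : Field F) (_ : Module F V) (g : L → Submodule F V),
      Function.Injective g ∧ (∀ x y, g (x ⊓ y) = g x ⊓ g y) ∧
        (∀ x y, g (x ⊔ y) = g x ⊔ g y) := by
  refine ⟨Subring.center D, inferInstance, Module.compHom V (Subring.center D).subtype, ?_⟩
  let _ : Module (Subring.center D) V := Module.compHom V (Subring.center D).subtype
  have : IsScalarTower (Subring.center D) D V := ⟨fun a b c => by
    show ((a : D) * b) • c = (a : D) • (b • c)
    rw [mul_smul]⟩
  refine ⟨fun x => (f x).restrictScalars (Subring.center D), ?_, ?_, ?_⟩
  · intro x y hxy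
    exact hf (Submodule.restrictScalars_injective (Subring.center D) D V hxy)
  · intro x y
    show (f (x ⊓ y)).restrictScalars _ = _
    rw [hinf]
    rfl
  · intro x y
    show (f (x ⊔ y)).restrictScalars _ = _
    rw [hsup, Submodule.restrictScalars_sup]

end Pool.Agent.Results.MP_332034_al.RestrictionOfScalars
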